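import Mathlib

/-!
# Dope matrices (MP_344d54_co): the DISPROOF. `(1, s, s², s³) ∼ (1, s, s², s⁴)` for transcendental `s`.
-/

set_option autoImplicit false

open Polynomial

namespace Pool.Agent.K7.H47.DM4

variable {ι : Type} [Fintype ι]

/-- column `c` may be matched with the row `σ c` -/
def Feas (t j : ι → ℕ) (σ : Equiv.Perm ι) : Prop := ∀ c, j c ≤ t (σ c)

/-- the exponent of the term `σ` of the determinant -/
def Wt (t cl : ι → ℕ) (σ : Equiv.Perm ι) : ℕ := ∑ c, cl c * t (σ c)

/-- JOB P: minors of Pascal's matrix. Proof 1: sort both; `C(t+1,j) = C(t,j) + C(t,j-1)` in all columns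
(`MultilinearMap.map_add_univ`), all terms `≥ 0`, one `> 0`. Proof 2 (Rolle): a real `P = ∑ p_r X ^ (t_r)` with
`P^{(j_c)}(1) = 0` for all `c` is `0`. -/
def StP : Prop := ∀ (ι : Type) [Fintype ι] [DecidableEq ι] (t j : ι → ℕ), Function.Injective t →
  Function.Injective j → (∀ c, j c ≤ t c) →
    (Matrix.of fun r c => (((t r).choose (j c) : ℕ) : ℚ)).det ≠ 0

/-- JOB U: two optimal matchings have the same classes at all rows. Else take the row `r` with the smallest `t r` where
they differ, `κ = cl (σ'⁻¹ r) < cl (σ⁻¹ r)` say. `σ'` puts one column more of class `κ` on rows with `t ≤ t r` than `σ`; so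
there is `x` of class `κ`, `j x ≤ t r`, `t (σ x) > t r`; exchanging `x` and `σ⁻¹ r` in `σ` gives a feasible matching
of larger weight. -/
def StU : Prop := ∀ (ι : Type) [Fintype ι] [DecidableEq ι] (t j cl : ι → ℕ), Function.Injective t →
  ∀ σ σ' : Equiv.Perm ι, Feas t j σ → Feas t j σ' →
    (∀ τ, Feas t j τ → Wt t cl τ ≤ Wt t cl σ) → (∀ τ, Feas t j τ → Wt t cl τ ≤ Wt t cl σ') →
      ∀ r, cl (σ.symm r) = cl (σ'.symm r)

open Classical in
/-- JOB BLK (assume `StP`): reindex the rows by `σ`, `Matrix.BlockTriangular.det` with respect to `cl` -/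
def StBlk : Prop := ∀ (ι : Type) [Fintype ι] [DecidableEq ι] (t j cl : ι → ℕ), Function.Injective t →
  (∀ c c', cl c = cl c' → j c = j c' → c = c') → ∀ σ : Equiv.Perm ι, Feas t j σ →
    (Matrix.of fun r c => if cl (σ.symm r) = cl c then (((t r).choose (j c) : ℕ) : ℚ) else 0).det ≠ 0

/-- JOB LEAD (assume `StU`, `StBlk`): for an optimal `σ` the coefficient of `X ^ Wt σ` of the determinant is the
determinant of `StBlk` (compare the Leibniz expansions, `Matrix.det_apply`, term by term). -/
def StK : Prop := ∀ (ι : Type) [Fintype ι] [DecidableEq ι] (t j cl : ι → ℕ), Function.Injective t →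
  (∀ c c', cl c = cl c' → j c = j c' → c = c') → (∃ σ : Equiv.Perm ι, Feas t j σ) →
    (Matrix.of fun r c => (C (((t r).choose (j c) : ℕ) : ℚ) * X ^ (cl c * t r) : ℚ[X])).det ≠ 0

/-- JOB LIN: configurations with the same bases have the same zero patterns. `B ⊆ E` is `v`-independent iff
it is `v'`-independent (extend to bases); so `Z = {e | ⟨v e, p⟩ = 0}`, which is a flat for `v`, is a flat for
`v'`; choose `p'` in the annihilator of `v' Z` outside finitely many proper subspaces. -/
def StLin : Prop := ∀ (N : ℕ) (E : Type) [Finite E] (v v' : E → Fin N → ℂ),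
  (∀ f : Fin N → E, Function.Injective f → ((Matrix.of fun c k => v (f c) k).det ≠ 0 ↔
    (Matrix.of fun c k => v' (f c) k).det ≠ 0)) →
  Submodule.span ℂ (Set.range v) = ⊤ → Submodule.span ℂ (Set.range v') = ⊤ →
    ∀ p : Fin N → ℂ, ∃ p' : Fin N → ℂ, ∀ e, (∑ k, v e k * p k = 0 ↔ ∑ k, v' e k * p' k = 0)

end Pool.Agent.K7.H47.DM4
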