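import Pool.Agent.K7.H47.DM.Core3
import Pool.Agent.K7.H99.DM_SYMSIM

/-!
# Dope matrices: all real quadratic irrationals
-/

set_option autoImplicit false

open Polynomial

namespace Pool.Agent.K7.H47.DM

theorem posq (hP : StPell3) {x y : ℂ} (hx : x ≠ 0) (hy : y ≠ 0) (hT : Tr x y) (A B C : ℤ)
    (hA : 0 < A) (hC : 0 < C) (hB : 2 * A ≤ B) (hs : ¬ IsSquare (B ^ 2 - 4 * A * C))
    (hd : 0 < B ^ 2 - 4 * A * C) (h : (A : ℂ) * x ^ 2 - B * x + C = 0) :
    (A : ℂ) * y ^ 2 - B * y + C = 0 := by
  obtain ⟨a, b, c, ha, hb, hab, hc, h1, h2⟩ := hP A B C hA hC hB hs hd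
  have h1' : (C : ℂ) * (a + b - 1) = B * (c - 1) := by exact_mod_cast h1
  have h2' : (C : ℂ) * (a * b) = A * (c * (c - 1)) := by exact_mod_cast h2
  have hC0 : (C : ℂ) ≠ 0 := by exact_mod_cast hC.ne'
  have hc0 : (c : ℂ) * (c - 1) ≠ 0 := by
    refine mul_ne_zero (by exact_mod_cast (by omega : c ≠ 0)) (sub_ne_zero.2 ?_)
    exact_mod_cast (by omega : c ≠ 1)
  have k := core3 a b c x y ha hb hab hc hx hy hT (by
    apply mul_left_cancel₀ hC0
    linear_combination x ^ 2 * h2' - c * x * h1' + (c : ℂ) * (c - 1) * h)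
  apply mul_left_cancel₀ hc0
  linear_combination C * k - y ^ 2 * h2' + c * y * h1'

theorem allq (hP : StPell3) : StAllQ := by
  have main : ∀ x y : ℂ, x ≠ 0 → x ≠ 1 → y ≠ 0 → y ≠ 1 → Tr x y → ∀ p q s : ℤ, 0 < p →
      0 < q ^ 2 - 4 * p * s → ¬ IsSquare (q ^ 2 - 4 * p * s) → p * x ^ 2 + q * x + s = 0 →
        p * y ^ 2 + q * y + s = 0 := by
    intro x y hx0 hx1 hy0 hy1 hT p q s hp hd hsq h
    have hx1' : 1 - x ≠ 0 := sub_ne_zero.2 (Ne.symm hx1)
    have hy1' : 1 - y ≠ 0 := sub_ne_zero.2 (Ne.symm hy1)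
    have hsym := Pool.Agent.K7.H99.DM.sym x y hx0 hy0 hT
    have hdu : (2 * p + q) ^ 2 - 4 * p * (p + q + s) = q ^ 2 - 4 * p * s := by ring
    have hu : ((p : ℤ) : ℂ) * (1 - x) ^ 2 + ((-(2 * p + q) : ℤ) : ℂ) * (1 - x) +
        ((p + q + s : ℤ) : ℂ) = 0 := by
      push_cast
      linear_combination h
    rcases lt_trichotomy s 0 with hs | hs | hs
    · exact quad hx0 hx1 hy0 hy1 hT p q s hsq (mul_neg_of_pos_of_neg hp hs) h
    · exact absurd ⟨q, by rw [hs]; ring⟩ hsq
    rcases lt_trichotomy (p + q + s) 0 with hf | hf | hf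
    · have k := quad hx1' (by simpa using hx0) hy1' (by simpa using hy0) hsym.2 p (-(2 * p + q))
        (p + q + s) (by
          rw [neg_sq, hdu]
          exact hsq) (mul_neg_of_pos_of_neg hp hf) hu
      push_cast at k
      linear_combination k
    · exact absurd ⟨p - s, by
        have : q = -(p + s) := by linarith
        rw [this]; ring⟩ hsq
    rcases le_or_gt 0 q with hq | hq
    · have k := posq hP hx1' hy1' hsym.2 p (2 * p + q) (p + q + s) hp hf (by linarith)
        (by rw [hdu]; exact hsq) (by rw [hdu]; exact hd) (by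
          push_cast
          linear_combination h)
      push_cast at k
      linear_combination k
    rcases le_or_gt q (-2 * p) with hq2 | hq2
    · have k := posq hP hx0 hy0 hT p (-q) s hp hs (by linarith) (by rw [neg_sq]; exact hsq)
        (by rw [neg_sq]; exact hd) (by
          push_cast
          linear_combination h)
      push_cast at k
      linear_combination k
    · have hsp : s < p := by
        by_contra hcon
        push Not at hcon
        nlinarith
      have hqs : 2 * s ≤ -q := by
        by_contra hcon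
        push Not at hcon
        nlinarith
      have e1 : (-q) ^ 2 - 4 * s * p = q ^ 2 - 4 * p * s := by ring
      have k := posq hP (inv_ne_zero hx0) (inv_ne_zero hy0) hsym.1 s (-q) p hs hp hqs
        (by rw [e1]; exact hsq) (by rw [e1]; exact hd) (by
          push_cast
          field_simp
          linear_combination h)
      push_cast at k
      field_simp at k
      linear_combination k
  intro x y hx0 hx1 hy0 hy1 hT p q s hd hsq h
  rcases lt_trichotomy p 0 with hp | hp | hp
  · have k := main x y hx0 hx1 hy0 hy1 hT (-p) (-q) (-s) (by linarith)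
      (by
        have : (-q) ^ 2 - 4 * -p * -s = q ^ 2 - 4 * p * s := by ring
        rw [this]; exact hd) (by
        have : (-q) ^ 2 - 4 * -p * -s = q ^ 2 - 4 * p * s := by ring
        rw [this]; exact hsq) (by
        push_cast
        linear_combination -h)
    push_cast at k
    linear_combination -k
  · exact absurd ⟨q, by rw [hp]; ring⟩ hsq
  · exact main x y hx0 hx1 hy0 hy1 hT p q s hp hd hsq h

end Pool.Agent.K7.H47.DM
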