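import Pool.Agent.K7.H47.DM.Fin

/-!
# Dope matrices (MP_344d54_co): all real quadratic irrationals, tuples in real quadratic fields
-/

set_option autoImplicit false

open Polynomial

namespace Pool.Agent.K7.H47.DM

/-- JOB PELL. Put `c - 1 = C v`, `a + b = 1 + B v`, `a b = A v (C v + 1)`; needed is an integer point `w ^ 2 = Δ v ^ 2 +
2 (B - 2 A) v + 1`, `Δ = B ^ 2 - 4 A C`, `h = B - 2 A`: for `r ^ 2 - Δ s ^ 2 = 1`, `r, s > 0` take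
`v = 2 s (h s + r)`, `w = 2 h r s + 1 + 2 Δ s ^ 2`; `s ≥ B` (Pell for `Δ B ^ 2`) makes `b ≥ 2`. -/
def StPell3 : Prop := ∀ A B C : ℤ, 0 < A → 0 < C → 2 * A ≤ B → ¬ IsSquare (B ^ 2 - 4 * A * C) →
  0 < B ^ 2 - 4 * A * C → ∃ a b c : ℕ, 2 ≤ a ∧ 2 ≤ b ∧ a ≠ b ∧ 2 ≤ c ∧
    C * ((a : ℤ) + b - 1) = B * ((c : ℤ) - 1) ∧ C * ((a : ℤ) * b) = A * ((c : ℤ) * (c - 1))

/-- (mine) the polynomials `X ^ t (c₀ + c₁ X + c₂ X ^ 2)` -/
def StCore3 : Prop := ∀ (a b c : ℕ) (x y : ℂ), 2 ≤ a → 2 ≤ b → a ≠ b → 2 ≤ c → x ≠ 0 → y ≠ 0 →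
  Tr x y → (a : ℂ) * b * x ^ 2 - (a + b - 1) * c * x + c * (c - 1) = 0 →
    (a : ℂ) * b * y ^ 2 - (a + b - 1) * c * y + c * (c - 1) = 0

/-- (mine) all real quadratic irrationals -/
def StAllQ : Prop := ∀ x y : ℂ, x ≠ 0 → x ≠ 1 → y ≠ 0 → y ≠ 1 → Tr x y → ∀ p q s : ℤ,
  0 < q ^ 2 - 4 * p * s → ¬ IsSquare (q ^ 2 - 4 * p * s) → p * x ^ 2 + q * x + s = 0 →
    p * y ^ 2 + q * y + s = 0

/-- (JOB TRI, assume `StAllQ`; rational numbers: `pow_iff`/`Pool.Agent.K7.H47.DM.pow` with `N = 1`) -/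
def StTri : Prop := ∀ Λ Λ' : Fin 3 → ℂ, Function.Injective Λ → Function.Injective Λ' → Sim Λ Λ' →
  ∀ (s : ℝ) (D p q : ℚ), s ^ 2 = D → ratio Λ = p + q * s →
    ratio Λ' = p + q * s ∨ ratio Λ' = p - q * s

/-- all the points are, up to an affine map, in a real quadratic field (or rational) -/
def InRealQuad {m : ℕ} (Λ : Fin m → ℂ) : Prop := ∃ (A B : ℂ) (s : ℝ), (∃ D : ℚ, s ^ 2 = D) ∧
  ∀ i, ∃ p q : ℚ, Λ i = A + B * (p + q * s)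

/-- JOB TUP (assume `StTri`). Restriction of the rows: `Sim (Λ ∘ f) (Λ' ∘ f)` for injective `f : Fin 3 → Fin m`.
Normalise by the points `0, 1`: `x_i = ratio`, all in `ℚ + ℚ s`. If all `x_i` are rational, `φ = id`. Else fix `i₀` with
`x_i₀` irrational; `x'_i₀ = φ x_i₀`, `φ` the identity or the conjugation (extended to `ℂ`, `aut`). For `i` with
`x_i` irrational, `x'_i = φ x_i`: else, by the triple `(0, i₀, i)`, `x'_i / x'_i₀` is `x_i / x_i₀` or its conjugate. -/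
def StTup : Prop := ∀ (m : ℕ) (Λ Λ' : Fin m → ℂ), Function.Injective Λ → Function.Injective Λ' →
  Sim Λ Λ' → InRealQuad Λ → ∃ (a b : ℂ) (φ : ℂ ≃+* ℂ), b ≠ 0 ∧ ∀ i, Λ' i = a + b * φ (Λ i)

end Pool.Agent.K7.H47.DM
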