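import Pool.Agent.K7.H47.DM.RAD
import Pool.Agent.K7.H47.DM.Stm3

/-!
# Dope matrices: polynomials with three consecutive terms
-/

set_option autoImplicit false

open Polynomial

namespace Pool.Agent.K7.H47.DM

/-- the derivative of order `t + 2 - a` of `X ^ t (u + v X / (t + 1) + w X ^ 2 / ((t + 1) (t + 2)))` -/
theorem three_eval (t a : ℕ) (u v w z : ℂ) (ha : 2 ≤ a) (hat : a ≤ t + 2) :
    (derivative^[t + 2 - a] (C u * X ^ t + C (v / (t + 1)) * X ^ (t + 1) +
      C (w / ((t + 1) * (t + 2))) * X ^ (t + 2) : ℂ[X])).eval z =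
      (t.factorial : ℂ) / a.factorial * z ^ (a - 2) * (a * (a - 1) * u + a * v * z + w * z ^ 2) := by
  obtain ⟨a, rfl⟩ : ∃ a', a = a' + 2 := ⟨a - 2, by omega⟩
  have h1 : t - (t + 2 - (a + 2)) = a := by omega
  have h2 : t + 1 - (t + 2 - (a + 2)) = a + 1 := by omega
  have h3 : t + 2 - (t + 2 - (a + 2)) = a + 2 := by omega
  have e1 : ((t.descFactorial (t + 2 - (a + 2)) : ℕ) : ℂ) * a.factorial = t.factorial := by
    have := Nat.factorial_mul_descFactorial (n := t) (k := t + 2 - (a + 2)) (by omega)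
    rw [h1] at this
    rw [← this]
    push_cast
    ring
  have e2 : (((t + 1).descFactorial (t + 2 - (a + 2)) : ℕ) : ℂ) * (a + 1).factorial =
      (t + 1).factorial := by
    have := Nat.factorial_mul_descFactorial (n := t + 1) (k := t + 2 - (a + 2)) (by omega)
    rw [h2] at this
    rw [← this]
    push_cast
    ring
  have e3 : (((t + 2).descFactorial (t + 2 - (a + 2)) : ℕ) : ℂ) * (a + 2).factorial =
      (t + 2).factorial := by
    have := Nat.factorial_mul_descFactorial (n := t + 2) (k := t + 2 - (a + 2)) (by omega)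
    rw [h3] at this
    rw [← this]
    push_cast
    ring
  have ht1 : (t : ℂ) + 1 ≠ 0 := by exact_mod_cast Nat.succ_ne_zero t
  have ht2 : (t : ℂ) + 2 ≠ 0 := by exact_mod_cast (by omega : t + 2 ≠ 0)
  have ha0 : (a.factorial : ℂ) ≠ 0 := by exact_mod_cast Nat.factorial_ne_zero a
  have ha1 : (a : ℂ) + 1 ≠ 0 := by exact_mod_cast Nat.succ_ne_zero a
  have ha2 : (a : ℂ) + 2 ≠ 0 := by exact_mod_cast (by omega : a + 2 ≠ 0)
  have f1 : ((a + 1).factorial : ℂ) = (a + 1) * a.factorial := by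
    rw [Nat.factorial_succ]; push_cast; ring
  have f2 : ((a + 2).factorial : ℂ) = (a + 2) * ((a + 1) * a.factorial) := by
    rw [show a + 2 = (a + 1) + 1 from rfl, Nat.factorial_succ, Nat.factorial_succ]; push_cast; ring
  have g1 : ((t + 1).factorial : ℂ) = (t + 1) * t.factorial := by
    rw [Nat.factorial_succ]; push_cast; ring
  have g2 : ((t + 2).factorial : ℂ) = (t + 2) * ((t + 1) * t.factorial) := by
    rw [show t + 2 = (t + 1) + 1 from rfl, Nat.factorial_succ, Nat.factorial_succ]; push_cast; ring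
  have d1 : ((t.descFactorial (t + 2 - (a + 2)) : ℕ) : ℂ) = t.factorial / a.factorial := by
    rw [eq_div_iff ha0, e1]
  have d2 : (((t + 1).descFactorial (t + 2 - (a + 2)) : ℕ) : ℂ) =
      (t + 1) * t.factorial / ((a + 1) * a.factorial) := by
    rw [eq_div_iff (mul_ne_zero ha1 ha0), ← f1, e2, g1]
  have d3 : (((t + 2).descFactorial (t + 2 - (a + 2)) : ℕ) : ℂ) =
      (t + 2) * ((t + 1) * t.factorial) / ((a + 2) * ((a + 1) * a.factorial)) := by
    rw [eq_div_iff (mul_ne_zero ha2 (mul_ne_zero ha1 ha0)), ← f2, e3, g2]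
  rw [iterate_map_add, iterate_map_add, iterate_derivative_C_mul,
    iterate_derivative_C_mul, iterate_derivative_C_mul, iterate_derivative_X_pow_eq_natCast_mul,
    iterate_derivative_X_pow_eq_natCast_mul, iterate_derivative_X_pow_eq_natCast_mul, h1, h2, h3]
  simp only [eval_add, eval_mul, eval_C, eval_natCast, eval_pow, eval_X]
  rw [d1, d2, d3, f2, show a + 2 - 2 = a from rfl]
  push_cast
  field_simp
  ring

/-- a polynomial with the coefficients of a three term polynomial -/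
theorem three_of_coeff (Q : ℂ[X]) (t : ℕ) (h : ∀ j, j ≠ t → j ≠ t + 1 → j ≠ t + 2 → Q.coeff j = 0) :
    ∃ u v w : ℂ, Q = C u * X ^ t + C (v / (t + 1)) * X ^ (t + 1) +
      C (w / ((t + 1) * (t + 2))) * X ^ (t + 2) := by
  have ht1 : (t : ℂ) + 1 ≠ 0 := by exact_mod_cast Nat.succ_ne_zero t
  have ht2 : (t : ℂ) + 2 ≠ 0 := by exact_mod_cast (by omega : t + 2 ≠ 0)
  refine ⟨Q.coeff t, Q.coeff (t + 1) * (t + 1), Q.coeff (t + 2) * ((t + 1) * (t + 2)), ?_⟩
  rw [mul_div_cancel_right₀ _ ht1, mul_div_cancel_right₀ _ (mul_ne_zero ht1 ht2)]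
  ext j
  simp only [coeff_add, coeff_C_mul, coeff_X_pow]
  by_cases h0 : j = t
  · subst h0; simp
  by_cases h1 : j = t + 1
  · subst h1; simp
  by_cases h2 : j = t + 2
  · subst h2; simp
  rw [h j h0 h1 h2]
  simp [h0, h1, h2]

theorem core3 : StCore3 := by
  intro a b c x y ha hb hab hc hx hy hT hE
  set t : ℕ := a + b + c with ht
  have ht1 : (t : ℂ) + 1 ≠ 0 := by exact_mod_cast Nat.succ_ne_zero t
  have ht2 : (t : ℂ) + 2 ≠ 0 := by exact_mod_cast (by omega : t + 2 ≠ 0)
  have hfac : ∀ n : ℕ, (n.factorial : ℂ) ≠ 0 := fun n => by exact_mod_cast Nat.factorial_ne_zero n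
  set P : ℂ[X] := C 1 * X ^ t + C (-((a : ℂ) + b - 1) / (t + 1)) * X ^ (t + 1) +
      C ((a : ℂ) * b / ((t + 1) * (t + 2))) * X ^ (t + 2) with hP
  have hPt : P.coeff t = 1 := by
    rw [hP]
    simp [coeff_X_pow]
  have hP0 : P ≠ 0 := by
    intro h
    rw [h] at hPt
    simp at hPt
  obtain ⟨Q, hQ0, -, hQ⟩ := hT P hP0
  have hco : ∀ j, j ≠ t → j ≠ t + 1 → j ≠ t + 2 → Q.coeff j = 0 := by
    intro j h0 h1 h2
    rw [← eval0, ← (hQ j).1, eval0, hP]
    simp only [coeff_add, coeff_C_mul, coeff_X_pow]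
    simp [h0, h1, h2]
  obtain ⟨u, v, w, hQe⟩ := three_of_coeff Q t hco
  have hat : a ≤ t + 2 := by omega
  have hbt : b ≤ t + 2 := by omega
  have hct : c ≤ t + 2 := by omega
  have ka : (a : ℂ) * (a - 1) * u + a * v + w = 0 := by
    have h1 := ((hQ (t + 2 - a)).2.1).1 (by
      rw [hP, three_eval t a _ _ _ _ ha hat]
      have : (a : ℂ) * (a - 1) * 1 + a * -((a : ℂ) + b - 1) * 1 + (a : ℂ) * b * 1 ^ 2 = 0 := by ring
      rw [this, mul_zero])
    rw [hQe, three_eval t a _ _ _ _ ha hat, one_pow, mul_one, one_pow, mul_one, mul_one] at h1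
    exact (mul_eq_zero.1 h1).resolve_left (div_ne_zero (hfac t) (hfac a))
  have kb : (b : ℂ) * (b - 1) * u + b * v + w = 0 := by
    have h1 := ((hQ (t + 2 - b)).2.1).1 (by
      rw [hP, three_eval t b _ _ _ _ hb hbt]
      have : (b : ℂ) * (b - 1) * 1 + b * -((a : ℂ) + b - 1) * 1 + (a : ℂ) * b * 1 ^ 2 = 0 := by ring
      rw [this, mul_zero])
    rw [hQe, three_eval t b _ _ _ _ hb hbt, one_pow, mul_one, one_pow, mul_one, mul_one] at h1
    exact (mul_eq_zero.1 h1).resolve_left (div_ne_zero (hfac t) (hfac b))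
  have kc : (c : ℂ) * (c - 1) * u + c * v * y + w * y ^ 2 = 0 := by
    have h1 := ((hQ (t + 2 - c)).2.2).1 (by
      rw [hP, three_eval t c _ _ _ _ hc hct]
      have : (c : ℂ) * (c - 1) * 1 + c * -((a : ℂ) + b - 1) * x + (a : ℂ) * b * x ^ 2 = 0 := by
        linear_combination hE
      rw [this, mul_zero])
    rw [hQe, three_eval t c _ _ _ _ hc hct] at h1
    exact (mul_eq_zero.1 h1).resolve_left (mul_ne_zero (div_ne_zero (hfac t) (hfac c))
      (pow_ne_zero _ hy))
  have hab' : (a : ℂ) - b ≠ 0 := sub_ne_zero.2 (by exact_mod_cast hab)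
  have hv : v = -((a : ℂ) + b - 1) * u := by
    apply mul_left_cancel₀ hab'
    linear_combination ka - kb
  have hw : w = (a : ℂ) * b * u := by
    rw [hv] at ka
    linear_combination ka
  have hu : u ≠ 0 := by
    rintro rfl
    rw [mul_zero] at hv hw
    rw [hv, hw] at hQe
    apply hQ0
    rw [hQe]
    simp
  rw [hv, hw] at kc
  apply mul_left_cancel₀ hu
  linear_combination kc

end Pool.Agent.K7.H47.DM
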