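import Pool.Agent.K7.H47.DM.Fin

/-!
# Dope matrices: rational convex relations
-/

set_option autoImplicit false

open Polynomial

namespace Pool.Agent.K7.H47.DM

theorem der_prod {m : ℕ} (L : Fin m → ℂ) (k : Fin m → ℕ) (h : 1 ≤ ∑ i, k i) (z : ℂ) :
    (derivative^[∑ i, k i - 1] (∏ i, (X - C (L i)) ^ k i)).eval z =
      (∑ i, k i - 1).factorial * ((∑ i, k i : ℕ) * z - ∑ i, (k i : ℂ) * L i) := by
  have hm : ∀ i ∈ Finset.univ, ((X - C (L i)) ^ k i : ℂ[X]).Monic :=
    fun i _ => (monic_X_sub_C _).pow _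
  have hd : (∏ i, (X - C (L i)) ^ k i : ℂ[X]).natDegree = ∑ i, k i := by
    rw [natDegree_prod_of_monic _ _ hm]
    refine Finset.sum_congr rfl fun i _ => ?_
    rw [(monic_X_sub_C _).natDegree_pow, natDegree_X_sub_C, mul_one]
  have hmon : (∏ i, (X - C (L i)) ^ k i : ℂ[X]).Monic := monic_prod_of_monic _ _ hm
  have hnc : (∏ i, (X - C (L i)) ^ k i : ℂ[X]).nextCoeff = -∑ i, (k i : ℂ) * L i := by
    rw [Monic.nextCoeff_prod _ _ hm, ← Finset.sum_neg_distrib]
    refine Finset.sum_congr rfl fun i _ => ?_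
    rw [(monic_X_sub_C _).nextCoeff_pow, nextCoeff_X_sub_C, nsmul_eq_mul]
    ring
  set P : ℂ[X] := ∏ i, (X - C (L i)) ^ k i with hP
  set n := ∑ i, k i with hn
  obtain ⟨n', hn'⟩ : ∃ n', n = n' + 1 := ⟨n - 1, by omega⟩
  have hc1 : P.coeff n = 1 := by
    rw [← hd]
    exact hmon
  have hc0 : P.coeff n' = -∑ i, (k i : ℂ) * L i := by
    rw [← hnc, nextCoeff_of_natDegree_pos (by omega), hd, hn', Nat.add_sub_cancel]
  have hdeg : (derivative^[n'] P).natDegree ≤ 1 := by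
    refine (natDegree_iterate_derivative P n').trans ?_
    omega
  rw [hn', Nat.add_sub_cancel, eq_X_add_C_of_natDegree_le_one hdeg]
  simp only [eval_add, eval_mul, eval_C, eval_X]
  rw [coeff_iterate_derivative, coeff_iterate_derivative, zero_add, Nat.descFactorial_self,
    show 1 + n' = n by omega, hc1, hc0]
  have h3 : n.descFactorial n' = (n' + 1) * n'.factorial := by
    rw [hn']
    have h4 := Nat.factorial_mul_descFactorial (n := n' + 1) (k := n') (by omega)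
    rw [show n' + 1 - n' = 1 by omega, Nat.factorial_one, one_mul, Nat.factorial_succ] at h4
    exact h4
  rw [h3, nsmul_eq_mul, nsmul_eq_mul]
  push_cast
  ring

/-- rational convex relations are detected -/
theorem cvx {m : ℕ} {Λ Λ' : Fin m → ℂ} (hΛ' : Function.Injective Λ') (h : TrG Λ Λ')
    (k : Fin m → ℕ) (j : Fin m) (hk : ∑ i, (k i : ℂ) * Λ i = (∑ i, k i : ℕ) * Λ j) :
    ∑ i, (k i : ℂ) * Λ' i = (∑ i, k i : ℕ) * Λ' j := by
  rcases Nat.eq_zero_or_pos (∑ i, k i) with h0 | h0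
  · have h1 : ∀ i, k i = 0 := by
      intro i
      have := (Finset.sum_eq_zero_iff.1 h0) i (Finset.mem_univ i)
      exact this
    simp [h1]
  have hP0 : ∀ L : Fin m → ℂ, (∏ i, (X - C (L i)) ^ k i : ℂ[X]) ≠ 0 := fun L =>
    Finset.prod_ne_zero_iff.2 fun i _ => pow_ne_zero _ (X_sub_C_ne_zero _)
  have hPd : ∀ L : Fin m → ℂ, (∏ i, (X - C (L i)) ^ k i : ℂ[X]).natDegree = ∑ i, k i := by
    intro L
    rw [natDegree_prod_of_monic _ _ fun i _ => (monic_X_sub_C _).pow _]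
    refine Finset.sum_congr rfl fun i _ => ?_
    rw [(monic_X_sub_C _).natDegree_pow, natDegree_X_sub_C, mul_one]
  obtain ⟨Q, hQ0, hQn, hQ⟩ := h _ (hP0 Λ)
  rw [hPd] at hQn
  have hdvd : (∏ i, (X - C (Λ' i)) ^ k i) ∣ Q := by
    refine Finset.prod_dvd_of_coprime ?_ ?_
    · intro a _ b _ hab
      refine IsCoprime.pow ?_
      exact isCoprime_X_sub_C_of_isUnit_sub (sub_ne_zero.2 fun h1 => hab (hΛ' h1)).isUnit
    · intro i _
      rw [dvd_iff_der hQ0]
      intro j hj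
      rw [← hQ j i]
      exact (dvd_iff_der (hP0 Λ) (Λ i) (k i)).1 (Finset.dvd_prod_of_mem _ (Finset.mem_univ i)) j hj
  obtain ⟨T, hT⟩ := hdvd
  have hT0 : T ≠ 0 := by
    rintro rfl
    rw [mul_zero] at hT
    exact hQ0 hT
  have hTd : T.natDegree = 0 := by
    rw [hT, natDegree_mul (hP0 Λ') hT0, hPd] at hQn
    omega
  obtain ⟨t, ht⟩ := natDegree_eq_zero.1 hTd
  have ht0 : t ≠ 0 := by
    rintro rfl
    rw [C_0] at ht
    exact hT0 ht.symm
  have h1 := (hQ (∑ i, k i - 1) j).1 (by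
    rw [der_prod Λ k h0, hk, sub_self, mul_zero])
  rw [hT, ← ht, mul_comm, iterate_derivative_C_mul, eval_mul, eval_C, der_prod Λ' k h0] at h1
  rcases mul_eq_zero.1 h1 with h2 | h2
  · exact absurd h2 ht0
  · rcases mul_eq_zero.1 h2 with h2 | h2
    · exact absurd (Nat.cast_eq_zero.1 h2) (Nat.factorial_ne_zero _)
    · exact (sub_eq_zero.1 h2).symm

end Pool.Agent.K7.H47.DM
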