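import Pool.Agent.K7.H47.DM.POW
import Pool.Agent.K7.H99.DM_SYMSIM
import Pool.Agent.K7.H60.DM_QUAD
import Pool.Agent.H977R3.CM.Aut

/-!
# Dope matrices: triples and automorphisms
-/

set_option autoImplicit false

open Polynomial

namespace Pool.Agent.K7.H47.DM

/-- zero patterns with respect to `Λ` are zero patterns with respect to `Λ'` -/
def TrG {m : ℕ} (Λ Λ' : Fin m → ℂ) : Prop := ∀ P : ℂ[X], P ≠ 0 → ∃ Q : ℂ[X], Q ≠ 0 ∧
  Q.natDegree = P.natDegree ∧ ∀ (j : ℕ) (i : Fin m),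
    (derivative^[j] P).eval (Λ i) = 0 ↔ (derivative^[j] Q).eval (Λ' i) = 0

theorem trG_of_sim {m : ℕ} {Λ Λ' : Fin m → ℂ} (h : Sim Λ Λ') : TrG Λ Λ' := by
  intro P hP
  set n := P.natDegree with hn
  have hM : (fun (i : Fin m) (j : Fin (n + 1)) =>
      (derivative^[(j : ℕ)] P).eval (Λ i) = 0) ∈ Dn n Λ :=
    ⟨P, degree_eq_natDegree hP, fun i j => Iff.rfl⟩
  rw [h n] at hM
  obtain ⟨Q, hQd, hQ⟩ := hM
  have hQ0 : Q ≠ 0 := by
    rintro rfl
    rw [degree_zero] at hQd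
    exact absurd hQd (by simp)
  have hQn : Q.natDegree = n := natDegree_eq_of_degree_eq_some hQd
  refine ⟨Q, hQ0, hQn, fun j i => ?_⟩
  rcases Nat.lt_or_ge n j with hj | hj
  · have e1 : derivative^[j] P = 0 := iterate_derivative_eq_zero hj
    have e2 : derivative^[j] Q = 0 := iterate_derivative_eq_zero (by rw [hQn]; exact hj)
    rw [e1, e2]
    simp
  · exact hQ i ⟨j, by omega⟩

/-- the third point if the first two are moved to `0` and `1` -/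
noncomputable def ratio (Λ : Fin 3 → ℂ) : ℂ := (Λ 2 - Λ 0) / (Λ 1 - Λ 0)

theorem tr_of_trG {Λ Λ' : Fin 3 → ℂ} (h1 : Λ 1 - Λ 0 ≠ 0) (h1' : Λ' 1 - Λ' 0 ≠ 0)
    (h : TrG Λ Λ') : Tr (ratio Λ) (ratio Λ') := by
  intro P hP
  set b := Λ 1 - Λ 0 with hb
  set b' := Λ' 1 - Λ' 0 with hb'
  have hbi : b⁻¹ ≠ 0 := inv_ne_zero h1
  obtain ⟨Q, hQ0, hQn, hQ⟩ := h (P.comp (C b⁻¹ * X + C (-(b⁻¹ * Λ 0))))
    (Pool.Agent.K7.H99.DM.nz hP hbi _)
  refine ⟨Q.comp (C b' * X + C (Λ' 0)), Pool.Agent.K7.H99.DM.nz hQ0 h1' _, by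
    rw [Pool.Agent.K7.H99.DM.nd _ h1', hQn, Pool.Agent.K7.H99.DM.nd _ hbi], fun j => ?_⟩
  have e0 := hQ j 0
  have e1 := hQ j 1
  have e2 := hQ j 2
  rw [Pool.Agent.K7.H99.DM.eval_comp' P hbi] at e0 e1 e2
  rw [Pool.Agent.K7.H99.DM.eval_comp' Q h1', Pool.Agent.K7.H99.DM.eval_comp' Q h1',
    Pool.Agent.K7.H99.DM.eval_comp' Q h1']
  have a0 : b⁻¹ * Λ 0 + -(b⁻¹ * Λ 0) = 0 := by ring
  have a1 : b⁻¹ * Λ 1 + -(b⁻¹ * Λ 0) = 1 := by
    have : b⁻¹ * Λ 1 + -(b⁻¹ * Λ 0) = b⁻¹ * b := by rw [hb]; ring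
    rw [this, inv_mul_cancel₀ h1]
  have a2 : b⁻¹ * Λ 2 + -(b⁻¹ * Λ 0) = ratio Λ := by
    unfold ratio
    rw [← hb, div_eq_mul_inv]
    ring
  have c0 : b' * 0 + Λ' 0 = Λ' 0 := by ring
  have c1 : b' * 1 + Λ' 0 = Λ' 1 := by rw [hb']; ring
  have c2 : b' * ratio Λ' + Λ' 0 = Λ' 2 := by
    unfold ratio
    rw [← hb', mul_div_cancel₀ _ h1']
    ring
  rw [a0] at e0
  rw [a1] at e1
  rw [a2] at e2
  rw [c0, c1, c2]
  exact ⟨e0, e1, e2⟩

/-- conjugate algebraic numbers and automorphisms of the complex numbers -/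
theorem aut {x y : ℂ} (hx : IsIntegral ℚ x) (h : minpoly ℚ x = minpoly ℚ y) :
    ∃ σ : ℂ ≃+* ℂ, σ x = y := by
  have hy : IsIntegral ℚ y := by
    rw [← minpoly.ne_zero_iff, ← h]
    exact minpoly.ne_zero hx
  have hac : IsAlgClosure ℚ (algebraicClosure ℚ ℂ) := algebraicClosure.isAlgClosure ℚ ℂ
  have hn0 : Normal ℚ (algebraicClosure ℚ ℂ) := IsAlgClosure.normal ℚ (algebraicClosure ℚ ℂ)
  let L := algebraicClosure ℚ ℂ
  have hx' : x ∈ L := mem_algebraicClosure_iff.2 hx.isAlgebraic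
  have hy' : y ∈ L := mem_algebraicClosure_iff.2 hy.isAlgebraic
  have hn : Normal ℚ L := hn0
  have hc : IsConjRoot ℚ (⟨y, hy'⟩ : L) ⟨x, hx'⟩ := by
    unfold IsConjRoot
    have e1 : minpoly ℚ (⟨x, hx'⟩ : L) = minpoly ℚ x :=
      (minpoly.algebraMap_eq (algebraMap L ℂ).injective (⟨x, hx'⟩ : L)).symm
    have e2 : minpoly ℚ (⟨y, hy'⟩ : L) = minpoly ℚ y :=
      (minpoly.algebraMap_eq (algebraMap L ℂ).injective (⟨y, hy'⟩ : L)).symm
    rw [e1, e2, h]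
  obtain ⟨g, hg⟩ := isConjRoot_iff_exists_algEquiv.1 hc
  obtain ⟨σ, hσ⟩ := Pool.Agent.H977R3.CM.exists_aut (L.val : L →+* ℂ) (g : L ≃+* L)
  refine ⟨σ, ?_⟩
  have h1 := hσ ⟨x, hx'⟩
  have h2 : (g : L ≃+* L) ⟨x, hx'⟩ = ⟨y, hy'⟩ := hg
  rw [h2] at h1
  exact h1

theorem trG_perm {m : ℕ} {Λ Λ' : Fin m → ℂ} (h : TrG Λ Λ') (e : Equiv.Perm (Fin m)) :
    TrG (Λ ∘ e) (Λ' ∘ e) := by
  intro P hP
  obtain ⟨Q, hQ0, hQn, hQ⟩ := h P hP
  exact ⟨Q, hQ0, hQn, fun j i => hQ j (e i)⟩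

theorem ratio_ne {Λ : Fin 3 → ℂ} (h : Function.Injective Λ) :
    Λ 1 - Λ 0 ≠ 0 ∧ ratio Λ ≠ 0 ∧ ratio Λ ≠ 1 := by
  have h1 : Λ 1 - Λ 0 ≠ 0 := sub_ne_zero.2 fun h2 => by
    have := h h2
    simp at this
  have h2 : Λ 2 - Λ 0 ≠ 0 := sub_ne_zero.2 fun h2 => by
    have := h h2
    simp at this
  refine ⟨h1, div_ne_zero h2 h1, ?_⟩
  unfold ratio
  rw [Ne, div_eq_one_iff_eq h1]
  intro h3
  have h4 : Λ 2 = Λ 1 := by linear_combination h3
  have := h h4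
  simp at this

/-- quadratic equations whose roots have opposite signs -/
theorem quad {x y : ℂ} (hx0 : x ≠ 0) (hx1 : x ≠ 1) (hy0 : y ≠ 0) (hy1 : y ≠ 1) (hT : Tr x y)
    (p q s : ℤ) (hd : ¬ IsSquare (q ^ 2 - 4 * p * s)) (hps : p * s < 0)
    (h : p * x ^ 2 + q * x + s = 0) : p * y ^ 2 + q * y + s = 0 := by
  have main : ∀ p q s : ℤ, ¬ IsSquare (q ^ 2 - 4 * p * s) → 0 < p → s < 0 →
      p * x ^ 2 + q * x + s = 0 → p * y ^ 2 + q * y + s = 0 := by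
    intro p q s hd hp hs h
    rcases lt_trichotomy (p + q + s) 0 with h1 | h1 | h1
    · have h2 := Pool.Agent.K7.H60.DMQUAD.t x y hx0 hx1 hy0 hy1 hT p (-q) (-s) hp (by omega)
        (by omega) (by
          have : (-q) ^ 2 + 4 * p * -s = q ^ 2 - 4 * p * s := by ring
          rwa [this]) (by push_cast; linear_combination h)
      push_cast at h2
      linear_combination h2
    · exfalso
      apply hd
      refine ⟨p - s, ?_⟩
      have : q = -p - s := by omega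
      rw [this]
      ring
    · have h2 := Pool.Agent.K7.H60.DMQUAD.t x⁻¹ y⁻¹ (inv_ne_zero hx0) (by simpa using hx1)
        (inv_ne_zero hy0) (by simpa using hy1) (Pool.Agent.K7.H99.DM.sym x y hx0 hy0 hT).1
        (-s) q p (by omega) hp (by omega) (by
          have : q ^ 2 + 4 * -s * p = q ^ 2 - 4 * p * s := by ring
          rwa [this]) (by
          push_cast
          field_simp
          linear_combination -h)
      push_cast at h2
      field_simp at h2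
      linear_combination -h2
  rcases lt_trichotomy p 0 with hp | hp | hp
  · have hs : 0 < s := by nlinarith
    have := main (-p) (-q) (-s) (by
      have : (-q) ^ 2 - 4 * -p * -s = q ^ 2 - 4 * p * s := by ring
      rwa [this]) (by omega) (by omega) (by push_cast; linear_combination -h)
    push_cast at this
    linear_combination -this
  · subst hp
    simp at hps
  · have hs : s < 0 := by nlinarith
    exact main p q s hd hp hs h

end Pool.Agent.K7.H47.DM
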