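import Pool.Agent.K7.H47.DM.Stm
import Pool.Agent.K7.H47.DM.Stm4

/-!
# Dope matrices: geometric progressions, and the counterexample
-/

set_option autoImplicit false

open Polynomial

namespace Pool.Agent.K7.H47.DM4

open Pool.Agent.K7.H47.DM (Dn Sim)

variable {m : ℕ}

/-- derivatives and binomial coefficients -/
theorem eval_iff (P : ℂ[X]) (n : ℕ) (hn : P.natDegree ≤ n) (z : ℂ) (hz : z ≠ 0) (j : ℕ) :
    (derivative^[j] P).eval z = 0 ↔
      ∑ k : Fin (n + 1), (((k : ℕ).choose j : ℂ) * z ^ (k : ℕ)) * P.coeff k = 0 := by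
  have h1 : P = ∑ k ∈ Finset.range (n + 1), C (P.coeff k) * X ^ k :=
    P.as_sum_range_C_mul_X_pow' (by omega)
  have h2 : (derivative^[j] P).eval z * z ^ j =
      j.factorial * ∑ k : Fin (n + 1), (((k : ℕ).choose j : ℂ) * z ^ (k : ℕ)) * P.coeff k := by
    rw [Fin.sum_univ_eq_sum_range (fun k => (((k : ℕ).choose j : ℂ) * z ^ (k : ℕ)) * P.coeff k)]
    conv_lhs => rw [h1]
    rw [iterate_derivative_sum, eval_finsetSum, Finset.sum_mul, Finset.mul_sum]
    refine Finset.sum_congr rfl fun k _ => ?_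
    rw [iterate_derivative_C_mul, iterate_derivative_X_pow_eq_natCast_mul]
    simp only [eval_mul, eval_C, eval_natCast, eval_pow, eval_X]
    rw [Nat.descFactorial_eq_factorial_mul_choose]
    rcases Nat.lt_or_ge k j with h | h
    · rw [Nat.choose_eq_zero_of_lt h]
      simp
    · have : z ^ k = z ^ (k - j) * z ^ j := by rw [← pow_add, Nat.sub_add_cancel h]
      rw [this]
      push_cast
      ring
  have hj : (j.factorial : ℂ) ≠ 0 := by exact_mod_cast Nat.factorial_ne_zero j
  constructor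
  · intro h
    rw [h, zero_mul] at h2
    exact (mul_eq_zero.1 h2.symm).resolve_left hj
  · intro h
    rw [h, mul_zero] at h2
    exact (mul_eq_zero.1 h2).resolve_right (pow_ne_zero _ hz)

/-- the configuration of the conditions at the points `s ^ w i` -/
noncomputable def V (n : ℕ) (w : Fin m → ℕ) (s : ℂ) (e : Fin m × Fin (n + 1)) (k : Fin (n + 1)) : ℂ :=
  (((k : ℕ).choose (e.2 : ℕ) : ℕ) : ℂ) * s ^ (w e.1 * (k : ℕ))

theorem det_iff (hK : StK) {s : ℂ} (hs : Transcendental ℚ s) (n : ℕ) (w : Fin m → ℕ)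
    (hw : Function.Injective w) (f : Fin (n + 1) → Fin m × Fin (n + 1)) (hf : Function.Injective f) :
    (Matrix.of fun c k => V n w s (f c) k).det ≠ 0 ↔
      ∃ σ : Equiv.Perm (Fin (n + 1)), Feas (fun r : Fin (n + 1) => (r : ℕ))
        (fun c => ((f c).2 : ℕ)) σ := by
  constructor
  · intro h
    by_contra hcon
    apply h
    rw [← Matrix.det_transpose, Matrix.det_apply]
    refine Finset.sum_eq_zero fun σ _ => ?_
    have h1 : ¬ Feas (fun r : Fin (n + 1) => (r : ℕ)) (fun c => ((f c).2 : ℕ)) σ := fun h2 =>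
      hcon ⟨σ, h2⟩
    unfold Feas at h1
    push Not at h1
    obtain ⟨c, hc⟩ := h1
    rw [Finset.prod_eq_zero (Finset.mem_univ c), smul_zero]
    simp only [Matrix.transpose_apply, Matrix.of_apply, V]
    rw [Nat.choose_eq_zero_of_lt hc]
    simp
  · intro h
    have h1 := hK (Fin (n + 1)) (fun r : Fin (n + 1) => (r : ℕ)) (fun c => ((f c).2 : ℕ))
      (fun c => w (f c).1) Fin.val_injective (fun c c' h2 h3 => hf (Prod.ext (hw h2) (Fin.ext h3))) h
    have h2 := transcendental_iff.1 hs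
    intro h3
    apply h1
    apply h2
    have h4 : aeval s (Matrix.of fun r c : Fin (n + 1) =>
        (C ((((r : ℕ)).choose ((f c).2 : ℕ) : ℕ) : ℚ) * X ^ (w (f c).1 * (r : ℕ)) : ℚ[X])).det =
        ((aeval s : ℚ[X] →ₐ[ℚ] ℂ).toRingHom.mapMatrix (Matrix.of fun r c : Fin (n + 1) =>
        (C ((((r : ℕ)).choose ((f c).2 : ℕ) : ℕ) : ℚ) * X ^ (w (f c).1 * (r : ℕ)) : ℚ[X]))).det :=
      (aeval s : ℚ[X] →ₐ[ℚ] ℂ).toRingHom.map_det _
    rw [h4, ← h3, ← Matrix.det_transpose]
    congr 1
    ext c r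
    simp [V, Matrix.transpose_apply]

theorem span_top [NeZero m] (hK : StK) {s : ℂ} (hs : Transcendental ℚ s) (n : ℕ) (w : Fin m → ℕ)
    (hw : Function.Injective w) : Submodule.span ℂ (Set.range (V n w s)) = ⊤ := by
  have h1 := (det_iff hK hs n w hw (fun c => (0, c)) (fun a b h => (Prod.mk.inj h).2)).2
    ⟨1, fun c => le_rfl⟩
  have h2 : LinearIndependent ℂ (fun c : Fin (n + 1) => V n w s (0, c)) := by
    have := Matrix.linearIndependent_rows_of_det_ne_zero h1
    exact this
  have h3 := h2.span_eq_top_of_card_eq_finrank (by simp)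
  refine top_le_iff.1 (h3 ▸ Submodule.span_mono ?_)
  rintro _ ⟨c, rfl⟩
  exact ⟨(0, c), rfl⟩

theorem half [NeZero m] (hK : StK) (hL : StLin) {s : ℂ} (hs : Transcendental ℚ s) (w w' : Fin m → ℕ)
    (hw : Function.Injective w) (hw' : Function.Injective w') (n : ℕ) :
    Dn n (fun i => s ^ w i) ⊆ Dn n (fun i => s ^ w' i) := by
  have hs0 : s ≠ 0 := by
    rintro rfl
    exact hs (isAlgebraic_zero)
  rintro M ⟨P, hP, hM⟩
  have hPn : P.natDegree = n := natDegree_eq_of_degree_eq_some hP
  obtain ⟨p', hp'⟩ := hL (n + 1) (Fin m × Fin (n + 1)) (V n w s) (V n w' s)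
    (fun f hf => by rw [det_iff hK hs n w hw f hf, det_iff hK hs n w' hw' f hf])
    (span_top hK hs n w hw) (span_top hK hs n w' hw') (fun k => P.coeff k)
  set Q : ℂ[X] := ∑ k : Fin (n + 1), C (p' k) * X ^ (k : ℕ) with hQ
  have hQc : ∀ k : Fin (n + 1), Q.coeff k = p' k := by
    intro k
    rw [hQ, finsetSum_coeff]
    simp only [coeff_C_mul, coeff_X_pow]
    rw [Finset.sum_eq_single k]
    · simp
    · intro b _ hb
      rw [if_neg (fun h => hb (Fin.ext h.symm)), mul_zero]
    · intro h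
      exact absurd (Finset.mem_univ k) h
  have hQd : Q.natDegree ≤ n := by
    rw [hQ]
    refine natDegree_sum_le_of_forall_le _ _ fun k _ => ?_
    exact (natDegree_C_mul_X_pow_le _ _).trans (by omega)
  have key : ∀ (i : Fin m) (j : Fin (n + 1)), (derivative^[(j : ℕ)] P).eval (s ^ w i) = 0 ↔
      (derivative^[(j : ℕ)] Q).eval (s ^ w' i) = 0 := by
    intro i j
    rw [eval_iff P n hPn.le _ (pow_ne_zero _ hs0), eval_iff Q n hQd _ (pow_ne_zero _ hs0)]
    have h1 := hp' (i, j)
    simp only [V, pow_mul] at h1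
    simp only [hQc]
    exact h1
  have hlast : Q.coeff n ≠ 0 := by
    have h1 := key 0 ⟨n, by omega⟩
    have h2 : ∀ (R : ℂ[X]) (z : ℂ), R.natDegree ≤ n →
        ((derivative^[n] R).eval z = 0 ↔ R.coeff n = 0) := by
      intro R z hR
      have h3 : (derivative^[n] R).natDegree ≤ 0 := by
        refine (natDegree_iterate_derivative R n).trans ?_
        omega
      rw [eq_C_of_natDegree_le_zero h3, eval_C, coeff_iterate_derivative, zero_add,
        Nat.descFactorial_self, nsmul_eq_mul, mul_eq_zero]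
      constructor
      · rintro (h4 | h4)
        · exact absurd (Nat.cast_eq_zero.1 h4) (Nat.factorial_ne_zero n)
        · exact h4
      · exact Or.inr
    rw [h2 P _ hPn.le, h2 Q _ hQd] at h1
    rw [Ne, ← h1, ← hPn]
    have : P ≠ 0 := by
      rintro rfl
      simp at hP
    exact leadingCoeff_ne_zero.2 this
  refine ⟨Q, ?_, fun i j => (hM i j).trans (key i j)⟩
  have h5 : Q.natDegree = n := le_antisymm hQd (le_natDegree_of_ne_zero hlast)
  have h6 : Q ≠ 0 := by
    intro h
    rw [h] at hlast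
    simp at hlast
  rw [degree_eq_natDegree h6, h5]

theorem sim [NeZero m] (hK : StK) (hL : StLin) {s : ℂ} (hs : Transcendental ℚ s) (w w' : Fin m → ℕ)
    (hw : Function.Injective w) (hw' : Function.Injective w') :
    Sim (fun i => s ^ w i) (fun i => s ^ w' i) := fun n =>
  Set.Subset.antisymm (half hK hL hs w w' hw hw' n) (half hK hL hs w' w hw' hw n)

end Pool.Agent.K7.H47.DM4
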