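import Pool.Agent.K7.H47.DM.Stm

/-!
# Dope matrices (MP_344d54_co): more Props
-/

set_option autoImplicit false

open Polynomial

namespace Pool.Agent.K7.H47.DM

/-- JOB MINR: real radicals -/
def StMinR : Prop := ∀ (t : ℝ) (N : ℕ) (r : ℚ), t ≠ 0 → 1 ≤ N → t ^ N = r →
  ∃ (n : ℕ) (s : ℚ), 1 ≤ n ∧ (t : ℂ) ^ n = s ∧ IsIntegral ℚ (t : ℂ) ∧
    minpoly ℚ (t : ℂ) = X ^ n - C s

/-- JOB MINQ: quadratic irrationals -/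
def StMinQ : Prop := ∀ (x y : ℂ) (p q s : ℤ), p ≠ 0 → ¬ IsSquare (q ^ 2 - 4 * p * s) →
  p * x ^ 2 + q * x + s = 0 → p * y ^ 2 + q * y + s = 0 → IsIntegral ℚ x ∧ minpoly ℚ x = minpoly ℚ y

/-- JOB QUADG -/
def StQuadG : Prop := StQuad → StSym → ∀ x y : ℂ, x ≠ 0 → x ≠ 1 → y ≠ 0 → y ≠ 1 → Tr x y →
  ∀ p q s : ℤ, ¬ IsSquare (q ^ 2 - 4 * p * s) → p * s < 0 ∨ p * (p + q + s) < 0 →
    p * x ^ 2 + q * x + s = 0 → p * y ^ 2 + q * y + s = 0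

/-- powers and rational numbers (mine) -/
def StPow : Prop := ∀ (x y : ℂ) (N : ℕ) (r : ℚ), x ≠ 0 → x ≠ 1 → y ≠ 0 → y ≠ 1 → 1 ≤ N →
  Tr x y → Tr y x → x ^ N = r → y ^ N = r

end Pool.Agent.K7.H47.DM
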