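import Pool.Agent.K7.H47.DM.RAD
import Pool.Agent.K7.H47.DM.Stm2

/-!
# Dope matrices: powers and rational numbers
-/

set_option autoImplicit false

open Polynomial

namespace Pool.Agent.K7.H47.DM

theorem expand_dvd_gen (N : ℕ) (hN : 1 ≤ N) (z : ℂ) (hz : z ≠ 0) : ∀ (m : ℕ) (S : ℂ[X]),
    (X - C z) ^ m ∣ expand ℂ N S → (X - C (z ^ N)) ^ m ∣ S := by
  intro m
  induction m with
  | zero => intro S _; simp
  | succ m ih =>
    intro S h
    have h1 : (X - C z) ∣ expand ℂ N S := (dvd_pow_self _ (Nat.succ_ne_zero m)).trans h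
    have h2 : S.eval (z ^ N) = 0 := by
      have := (dvd_iff_isRoot.1 h1)
      rw [IsRoot.def, expand_eval] at this
      exact this
    obtain ⟨S', rfl⟩ := dvd_iff_isRoot.2 (show S.IsRoot (z ^ N) from h2)
    rw [map_mul] at h
    have h3 : expand ℂ N (X - C (z ^ N)) =
        (X - C z) * ∑ i ∈ Finset.range N, X ^ i * (C z) ^ (N - 1 - i) := by
      rw [map_sub, expand_X, expand_C, mul_comm, Commute.geom_sum₂_mul (Commute.all _ _), C_pow]
    rw [h3, pow_succ, mul_assoc, mul_comm ((X - C z) ^ m), mul_dvd_mul_iff_left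
      (X_sub_C_ne_zero z)] at h
    have h4 : IsCoprime ((X - C z) ^ m)
        (∑ i ∈ Finset.range N, (X : ℂ[X]) ^ i * (C z) ^ (N - 1 - i)) := by
      refine IsCoprime.pow_left ?_
      refine ((irreducible_X_sub_C z).coprime_iff_not_dvd).2 fun h5 => ?_
      have h6 := dvd_iff_isRoot.1 h5
      rw [IsRoot.def, eval_finsetSum] at h6
      have h7 : ∀ i ∈ Finset.range N, eval z ((X : ℂ[X]) ^ i * (C z) ^ (N - 1 - i)) = z ^ (N - 1) := by
        intro i hi
        have hi' := Finset.mem_range.1 hi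
        rw [eval_mul, eval_pow, eval_pow, eval_X, eval_C, ← pow_add]
        congr 1
        omega
      rw [Finset.sum_congr rfl h7, Finset.sum_const, Finset.card_range, nsmul_eq_mul] at h6
      rcases mul_eq_zero.1 h6 with h8 | h8
      · have := Nat.cast_eq_zero.1 h8
        omega
      · exact pow_ne_zero _ hz h8
    have h5 := h4.dvd_of_dvd_mul_left h
    rw [pow_succ, mul_comm]
    exact mul_dvd_mul_left _ (ih S' h5)

/-- polynomials in `X ^ N` -/
theorem exists_expand (N : ℕ) (hN : 1 ≤ N) (Q : ℂ[X]) (h : ∀ j, ¬ N ∣ j → Q.coeff j = 0) :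
    ∃ S : ℂ[X], Q = expand ℂ N S := by
  refine ⟨contract N Q, ?_⟩
  ext j
  rw [coeff_expand (by omega)]
  split_ifs with h1
  · rw [coeff_contract (by omega), Nat.div_mul_cancel h1]
  · exact h j h1

/-- the coefficients of the `Q` of `Tr` -/
theorem exists_expand' (N : ℕ) (hN : 1 ≤ N) (R Q : ℂ[X])
    (h : ∀ j, (derivative^[j] (expand ℂ N R)).eval 0 = 0 ↔ (derivative^[j] Q).eval 0 = 0) :
    ∃ S : ℂ[X], Q = expand ℂ N S := by
  refine exists_expand N hN Q fun j hj => ?_
  rw [← eval0, ← h j, eval0, coeff_expand (by omega), if_neg hj]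

theorem one {x y : ℂ} {N : ℕ} (hN : 1 ≤ N) (hT : Tr x y) (hx : x ^ N = 1) : y ^ N = 1 := by
  have hP : expand ℂ N (X - C 1) ≠ 0 := by
    rw [Ne, expand_eq_zero (by omega)]
    exact X_sub_C_ne_zero 1
  obtain ⟨Q, hQ0, hQd, hQ⟩ := hT (expand ℂ N (X - C 1)) hP
  obtain ⟨S, rfl⟩ := exists_expand' N hN (X - C 1) Q fun j => (hQ j).1
  rw [natDegree_expand, natDegree_expand, natDegree_X_sub_C] at hQd
  have hS1 : S.natDegree = 1 := Nat.eq_of_mul_eq_mul_right (by omega) hQd
  have h1 := (hQ 0).2.1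
  have h2 := (hQ 0).2.2
  simp only [Function.iterate_zero, id_eq, expand_eval, one_pow, eval_sub, eval_X, eval_C, sub_self,
    true_iff, hx] at h1 h2
  rw [eq_X_add_C_of_natDegree_le_one hS1.le] at h1 h2
  simp only [eval_add, eval_mul, eval_C, eval_X, mul_one] at h1 h2
  have h3 : S.coeff 1 ≠ 0 := by
    rw [← hS1]
    refine leadingCoeff_ne_zero.2 ?_
    rintro rfl
    simp at hS1
  have h4 : S.coeff 1 * (y ^ N - 1) = 0 := by linear_combination h2 - h1
  rcases mul_eq_zero.1 h4 with h5 | h5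
  · exact absurd h5 h3
  · exact sub_eq_zero.1 h5

/-- the coefficient of `X` -/
theorem coeff1 (b c : ℕ) (hb : 1 ≤ b) (hc : 1 ≤ c) (w : ℂ) (hw : w ≠ 0) :
    ((X - C 1) ^ b * (X - C w) ^ c : ℂ[X]).coeff 1 = 0 ↔ b * w = - c := by
  obtain ⟨b, rfl⟩ : ∃ b', b = b' + 1 := ⟨b - 1, by omega⟩
  obtain ⟨c, rfl⟩ : ∃ b', c = b' + 1 := ⟨c - 1, by omega⟩
  rw [← eval0, Function.iterate_one]
  have h : (derivative ((X - C 1) ^ (b + 1) * (X - C w) ^ (c + 1) : ℂ[X])).eval 0 =
      (-1) ^ b * (-w) ^ c * (-(((b : ℂ) + 1) * w) - (c + 1)) := by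
    simp only [derivative_mul, derivative_pow_succ, derivative_sub, derivative_X, derivative_C, derivative_one, eval_zero,
      eval_add, eval_mul, eval_pow, eval_sub, eval_X, eval_one, eval_C, eval_natCast, map_add,
      map_natCast, map_one, sub_zero, zero_sub]
    ring
  rw [h]
  constructor
  · intro h1
    rcases mul_eq_zero.1 h1 with h1 | h1
    · rcases mul_eq_zero.1 h1 with h1 | h1
      · exact absurd h1 (pow_ne_zero _ (by norm_num))
      · exact absurd h1 (pow_ne_zero _ (neg_ne_zero.2 hw))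
    · push_cast
      linear_combination -h1
  · intro h1
    push_cast at h1
    have : -(((b : ℂ) + 1) * w) - (c + 1) = 0 := by linear_combination -h1
    rw [this, mul_zero]

theorem neg {x y : ℂ} {N b c : ℕ} (hN : 1 ≤ N) (hb : 1 ≤ b) (hc : 1 ≤ c) (hx0 : x ≠ 0)
    (hy0 : y ≠ 0) (hT : Tr x y) (hT' : Tr y x) (hx : b * x ^ N = -c) : b * y ^ N = -c := by
  have hx1 : x ^ N ≠ 1 := by
    intro h
    rw [h, mul_one] at hx
    have h1 : (b : ℂ) + c = 0 := by rw [hx]; ring
    have : b + c = 0 := by exact_mod_cast h1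
    omega
  have hy1 : y ^ N ≠ 1 := fun h => hx1 (one hN hT' h)
  set R : ℂ[X] := (X - C 1) ^ b * (X - C (x ^ N)) ^ c with hR
  have hR0 : R ≠ 0 := mul_ne_zero (pow_ne_zero _ (X_sub_C_ne_zero 1))
    (pow_ne_zero _ (X_sub_C_ne_zero _))
  have hRd : R.natDegree = b + c := by
    rw [hR, natDegree_mul (pow_ne_zero _ (X_sub_C_ne_zero 1)) (pow_ne_zero _ (X_sub_C_ne_zero _)),
      natDegree_pow, natDegree_pow, natDegree_X_sub_C, natDegree_X_sub_C, mul_one, mul_one]
  have hP : expand ℂ N R ≠ 0 := by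
    rwa [Ne, expand_eq_zero (by omega)]
  obtain ⟨Q, hQ0, hQd, hQ⟩ := hT (expand ℂ N R) hP
  obtain ⟨S, rfl⟩ := exists_expand' N hN R Q fun j => (hQ j).1
  rw [natDegree_expand, natDegree_expand, hRd] at hQd
  have hSd : S.natDegree = b + c := Nat.eq_of_mul_eq_mul_right (by omega) hQd
  have hS0 : S ≠ 0 := by
    rintro rfl
    simp at hQ0
  -- multiplicities
  have hPx : ∀ z : ℂ, (X - C z) ∣ expand ℂ N (X - C (z ^ N)) := by
    intro z
    rw [dvd_iff_isRoot, IsRoot.def, expand_eval]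
    simp
  have h1 : (X - C (1 : ℂ)) ^ b ∣ expand ℂ N S := by
    rw [dvd_iff_der hQ0]
    intro j hj
    rw [← (hQ j).2.1]
    refine (dvd_iff_der hP 1 b).1 ?_ j hj
    rw [hR, map_mul, map_pow]
    refine Dvd.dvd.mul_right (pow_dvd_pow_of_dvd ?_ b) _
    have := hPx 1
    rwa [one_pow] at this
  have h2 : (X - C y) ^ c ∣ expand ℂ N S := by
    rw [dvd_iff_der hQ0]
    intro j hj
    rw [← (hQ j).2.2]
    refine (dvd_iff_der hP x c).1 ?_ j hj
    rw [hR, map_mul, map_pow, map_pow]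
    exact Dvd.dvd.mul_left (pow_dvd_pow_of_dvd (hPx x) c) _
  have h3 : (X - C (1 : ℂ)) ^ b ∣ S := by
    have := expand_dvd_gen N hN 1 one_ne_zero b S h1
    rwa [one_pow] at this
  have h4 := expand_dvd_gen N hN y hy0 c S h2
  have hcop : IsCoprime ((X - C (1 : ℂ)) ^ b) ((X - C (y ^ N)) ^ c) := by
    refine IsCoprime.pow ?_
    exact isCoprime_X_sub_C_of_isUnit_sub (sub_ne_zero.2 hy1.symm).isUnit
  obtain ⟨T, hTS⟩ := hcop.mul_dvd h3 h4
  have hT0 : T ≠ 0 := by
    rintro rfl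
    rw [mul_zero] at hTS
    exact hS0 hTS
  have hTd : T.natDegree = 0 := by
    rw [hTS, natDegree_mul (mul_ne_zero (pow_ne_zero _ (X_sub_C_ne_zero 1))
      (pow_ne_zero _ (X_sub_C_ne_zero _))) hT0,
      natDegree_mul (pow_ne_zero _ (X_sub_C_ne_zero 1)) (pow_ne_zero _ (X_sub_C_ne_zero _)),
      natDegree_pow, natDegree_pow, natDegree_X_sub_C, natDegree_X_sub_C, mul_one, mul_one] at hSd
    omega
  obtain ⟨t, ht⟩ := natDegree_eq_zero.1 hTd
  have ht0 : t ≠ 0 := by
    rintro rfl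
    rw [C_0] at ht
    exact hT0 ht.symm
  have h5 : (expand ℂ N S).coeff N = 0 := by
    rw [← eval0, ← (hQ N).1, eval0, coeff_expand (by omega), if_pos dvd_rfl, Nat.div_self (by omega),
      hR, coeff1 b c hb hc _ (pow_ne_zero _ hx0)]
    exact hx
  rw [coeff_expand (by omega), if_pos dvd_rfl, Nat.div_self (by omega), hTS, ← ht, mul_comm,
    coeff_C_mul] at h5
  rcases mul_eq_zero.1 h5 with h6 | h6
  · exact absurd h6 ht0
  · exact (coeff1 b c hb hc _ (pow_ne_zero _ hy0)).1 h6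

/-- powers and rational numbers -/
theorem pow (hSym : StSym) : StPow := by
  have key : ∀ (x y : ℂ) (N : ℕ) (r : ℚ), x ≠ 0 → x ≠ 1 → y ≠ 0 → y ≠ 1 → 1 ≤ N → Tr x y →
      0 < r → r < 1 → x ^ N = r → y ^ N = r := by
    intro x y N r hx0 hx1 hy0 hy1 hN hT h0 h1 hx
    have hu : 0 < r.num := Rat.num_pos.2 h0
    have huv : r.num < r.den := by
      have h2 : r.num < r.den := by
        have := (Rat.lt_iff r 1).1 h1
        simpa using this
      exact h2
    obtain ⟨u, hu'⟩ : ∃ u : ℕ, r.num = u := ⟨r.num.toNat, by omega⟩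
    have hr : (r : ℂ) = u / r.den := by
      have h3 := Rat.num_div_den r
      rw [hu'] at h3
      have h4 : (((u : ℤ) : ℚ) : ℂ) / ((r.den : ℚ) : ℂ) = (r : ℂ) := by
        rw [← Rat.cast_div]
        exact congrArg _ h3
      rw [← h4]
      push_cast
      rfl
    have huv' : u < r.den := by omega
    have hu0 : 1 ≤ u := by omega
    have hN0 : (N : ℂ) ≠ 0 := by exact_mod_cast (by omega : N ≠ 0)
    have hd0 : (r.den : ℂ) ≠ 0 := by exact_mod_cast r.den_nz
    have hcast : ((r.den - u : ℕ) : ℂ) = r.den - u := by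
      rw [Nat.cast_sub huv'.le]
    have hval : ((u * N : ℕ) : ℂ) / ((u * N : ℕ) + ((r.den - u : ℕ) : ℂ) * N) = r := by
      rw [hr, hcast]
      push_cast
      have : (u : ℂ) * N + (r.den - u) * N = r.den * N := by ring
      rw [this, mul_div_mul_right _ _ hN0]
    have h5 := rad x y N (u * N) (r.den - u) hx0 hx1 hy0 hy1 hN (Nat.mul_pos hu0 hN)
      (by omega) hT (by rw [hx]; exact hval.symm)
    rw [h5]
    exact hval
  intro x y N r hx0 hx1 hy0 hy1 hN hT hT' hx
  rcases lt_trichotomy r 0 with h | h | h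
  · -- negative
    obtain ⟨c, hc⟩ : ∃ u : ℕ, -r.num = u := ⟨(-r.num).toNat, by
      have := Rat.num_neg.2 h
      omega⟩
    have hc1 : 1 ≤ c := by
      have := Rat.num_neg.2 h
      omega
    have hd0 : (r.den : ℂ) ≠ 0 := by exact_mod_cast r.den_nz
    have hr : (r.den : ℂ) * r = -c := by
      have h3 : (r.den : ℚ) * r = r.num := Rat.den_mul_eq_num r
      have h4 : (r.num : ℚ) = -c := by
        have : r.num = -(c : ℤ) := by omega
        rw [this]
        push_cast
        ring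
      rw [h4] at h3
      exact_mod_cast congrArg (fun q : ℚ => (q : ℂ)) h3
    have h5 := neg hN r.den_pos hc1 hx0 hy0 hT hT' (by rw [hx]; exact hr)
    have h6 : (r.den : ℂ) * (y ^ N - r) = 0 := by rw [mul_sub, h5, hr, sub_self]
    rcases mul_eq_zero.1 h6 with h7 | h7
    · exact absurd h7 hd0
    · exact sub_eq_zero.1 h7
  · subst h
    exact absurd hx (by simpa using pow_ne_zero N hx0)
  · rcases lt_trichotomy r 1 with h1 | h1 | h1
    · exact key x y N r hx0 hx1 hy0 hy1 hN hT h h1 hx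
    · subst h1
      rw [Rat.cast_one] at hx ⊢
      exact one hN hT hx
    · have h2 := (hSym x y hx0 hy0 hT).1
      have h3 := key x⁻¹ y⁻¹ N r⁻¹ (inv_ne_zero hx0) (by simpa using hx1) (inv_ne_zero hy0)
        (by simpa using hy1) hN h2 (inv_pos.2 h) (inv_lt_one_of_one_lt₀ h1) (by
          rw [inv_pow, hx, Rat.cast_inv])
      rw [inv_pow, Rat.cast_inv] at h3
      exact inv_injective h3

end Pool.Agent.K7.H47.DM
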