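import Pool.Agent.K7.H47.DM.Stm

/-!
# Dope matrices: job RAD
-/

set_option autoImplicit false

open Polynomial

namespace Pool.Agent.K7.H47.DM

/-- the derivatives at `0` and the coefficients -/
theorem eval0 (P : ℂ[X]) (j : ℕ) : (derivative^[j] P).eval 0 = 0 ↔ P.coeff j = 0 := by
  rw [← coeff_zero_eq_eval_zero, coeff_iterate_derivative, zero_add, Nat.descFactorial_self,
    nsmul_eq_mul, mul_eq_zero]
  constructor
  · rintro (h | h)
    · exact absurd (Nat.cast_eq_zero.1 h) (Nat.factorial_ne_zero j)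
    · exact h
  · exact Or.inr

/-- the multiplicity of a zero and the derivatives -/
theorem dvd_iff_der {P : ℂ[X]} (h : P ≠ 0) (t : ℂ) (m : ℕ) :
    (X - C t) ^ m ∣ P ↔ ∀ j < m, (derivative^[j] P).eval t = 0 := by
  rw [← le_rootMultiplicity_iff h]
  cases m with
  | zero => simp
  | succ m =>
    rw [Nat.succ_le_iff, lt_rootMultiplicity_iff_isRoot_iterate_derivative h]
    exact ⟨fun h1 j hj => h1 j (Nat.lt_succ_iff.1 hj), fun h1 j hj => h1 j (Nat.lt_succ_iff.2 hj)⟩

theorem expand_dvd (N : ℕ) (hN : 1 ≤ N) : ∀ (m : ℕ) (S : ℂ[X]),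
    (X - C (1 : ℂ)) ^ m ∣ expand ℂ N S → (X - C (1 : ℂ)) ^ m ∣ S := by
  intro m
  induction m with
  | zero => intro S _; simp
  | succ m ih =>
    intro S h
    have h1 : (X - C (1 : ℂ)) ∣ expand ℂ N S := (dvd_pow_self _ (Nat.succ_ne_zero m)).trans h
    have h2 : S.eval 1 = 0 := by
      have := (dvd_iff_isRoot.1 h1)
      rw [IsRoot.def, expand_eval, one_pow] at this
      exact this
    obtain ⟨S', rfl⟩ := dvd_iff_isRoot.2 (show S.IsRoot 1 from h2)
    rw [map_mul] at h
    have h3 : expand ℂ N (X - C (1 : ℂ)) = (X - C (1 : ℂ)) * ∑ i ∈ Finset.range N, X ^ i := by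
      rw [map_sub, expand_X, expand_C, C_1, mul_comm, geom_sum_mul]
    rw [h3, pow_succ, mul_assoc, mul_comm ((X - C (1 : ℂ)) ^ m), mul_dvd_mul_iff_left
      (X_sub_C_ne_zero 1)] at h
    have h4 : IsCoprime ((X - C (1 : ℂ)) ^ m) (∑ i ∈ Finset.range N, (X : ℂ[X]) ^ i) := by
      refine IsCoprime.pow_left ?_
      refine ((irreducible_X_sub_C (1 : ℂ)).coprime_iff_not_dvd).2 fun h5 => ?_
      have h6 := dvd_iff_isRoot.1 h5
      rw [IsRoot.def, eval_geom_sum] at h6
      simp only [one_pow, Finset.sum_const, Finset.card_range, nsmul_eq_mul, mul_one,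
        Nat.cast_eq_zero] at h6
      omega
    have h5 := h4.dvd_of_dvd_mul_left h
    rw [pow_succ, mul_comm]
    exact mul_dvd_mul_left _ (ih S' h5)

/-- the polynomial of the job -/
noncomputable def PP (N k m : ℕ) : ℂ[X] := X ^ k * expand ℂ N ((X - C 1) ^ m)

theorem PP_ne (N k m : ℕ) (hN : 1 ≤ N) : PP N k m ≠ 0 := by
  unfold PP
  refine mul_ne_zero (pow_ne_zero _ X_ne_zero) ?_
  rw [Ne, expand_eq_zero (by omega)]
  exact pow_ne_zero _ (X_sub_C_ne_zero 1)

theorem PP_deg (N k m : ℕ) (hN : 1 ≤ N) : (PP N k m).natDegree = k + m * N := by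
  unfold PP
  rw [natDegree_mul (pow_ne_zero _ X_ne_zero) (by
    rw [Ne, expand_eq_zero (by omega)]
    exact pow_ne_zero _ (X_sub_C_ne_zero 1)), natDegree_X_pow, natDegree_expand, natDegree_pow,
    natDegree_X_sub_C, mul_one]

theorem PP_eval (N k m : ℕ) (z : ℂ) : (PP N k m).eval z = z ^ k * (z ^ N - 1) ^ m := by
  unfold PP
  simp

theorem PP_der (N k m : ℕ) (hN : 1 ≤ N) (hk : 1 ≤ k) (hm : 1 ≤ m) (z : ℂ) :
    (derivative (PP N k m)).eval z =
      z ^ (k - 1) * (z ^ N - 1) ^ (m - 1) * ((k + m * N) * z ^ N - k) := by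
  obtain ⟨k, rfl⟩ : ∃ k', k = k' + 1 := ⟨k - 1, by omega⟩
  obtain ⟨m, rfl⟩ : ∃ k', m = k' + 1 := ⟨m - 1, by omega⟩
  obtain ⟨N, rfl⟩ : ∃ k', N = k' + 1 := ⟨N - 1, by omega⟩
  have h : PP (N + 1) (k + 1) (m + 1) = X ^ (k + 1) * (X ^ (N + 1) - 1) ^ (m + 1) := by
    unfold PP
    rw [map_pow, map_sub, expand_X, expand_C, C_1]
  rw [h]
  simp only [derivative_mul, derivative_pow_succ, derivative_sub, derivative_one, derivative_X,
    eval_add, eval_mul, eval_pow, eval_sub, eval_X, eval_one, eval_natCast, Nat.add_sub_cancel,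
    Nat.cast_add, Nat.cast_one, map_add, map_natCast, map_one, sub_zero]
  ring

/-- job RAD -/
theorem rad : StRad := by
  intro x y N k m hx0 hx1 hy0 hy1 hN hk hm hT hx
  have hd : ((k : ℂ) + m * N) ≠ 0 := by
    have : (0 : ℝ) < (k : ℝ) + m * N := by positivity
    exact_mod_cast this.ne'
  have hk0 : (k : ℂ) ≠ 0 := by exact_mod_cast (by omega : k ≠ 0)
  have hmN : ((m : ℂ) * N) ≠ 0 := by
    have : m * N ≠ 0 := Nat.mul_ne_zero (by omega) (by omega)
    exact_mod_cast this
  obtain ⟨Q, hQ0, hQd, hQ⟩ := hT (PP N k m) (PP_ne N k m hN)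
  rw [PP_deg N k m hN] at hQd
  -- the coefficients
  have hco : ∀ j, (j < k ∨ ¬ N ∣ (j - k)) → Q.coeff j = 0 := by
    intro j hj
    rw [← eval0, ← (hQ j).1, eval0]
    unfold PP
    rw [coeff_X_pow_mul']
    rcases hj with hj | hj
    · rw [if_neg (by omega)]
    · split_ifs
      · rw [coeff_expand (by omega), if_neg hj]
      · rfl
  obtain ⟨R, hR⟩ : X ^ k ∣ Q := X_pow_dvd_iff.2 fun d hd => hco d (Or.inl hd)
  have hRc : ∀ j, ¬ N ∣ j → R.coeff j = 0 := by
    intro j hj
    have h1 := hco (j + k) (Or.inr (by rwa [Nat.add_sub_cancel]))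
    rwa [hR, coeff_X_pow_mul] at h1
  have hRS : expand ℂ N (contract N R) = R := by
    ext j
    rw [coeff_expand (by omega)]
    split_ifs with h
    · rw [coeff_contract (by omega), Nat.div_mul_cancel h]
    · exact (hRc j h).symm
  set S := contract N R with hS
  rw [← hRS] at hR
  have hS0 : S ≠ 0 := by
    intro h
    rw [h, map_zero, mul_zero] at hR
    exact hQ0 hR
  have hSd : S.natDegree = m := by
    rw [hR, natDegree_mul (pow_ne_zero _ X_ne_zero) (by rwa [Ne, expand_eq_zero (by omega)]),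
      natDegree_X_pow, natDegree_expand] at hQd
    have : S.natDegree * N = m * N := by omega
    exact Nat.eq_of_mul_eq_mul_right (by omega) this
  -- the zero at one
  have h1 : (X - C (1 : ℂ)) ^ m ∣ Q := by
    rw [dvd_iff_der hQ0]
    intro j hj
    rw [← (hQ j).2.1]
    have h2 : (X - C (1 : ℂ)) ^ m ∣ PP N k m := by
      unfold PP
      rw [map_pow, map_sub, expand_X, expand_C]
      refine Dvd.dvd.mul_left (pow_dvd_pow_of_dvd ?_ m) _
      rw [dvd_iff_isRoot, IsRoot.def]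
      simp
    exact (dvd_iff_der (PP_ne N k m hN) 1 m).1 h2 j hj
  have h2 : (X - C (1 : ℂ)) ^ m ∣ expand ℂ N S := by
    rw [hR] at h1
    refine IsCoprime.dvd_of_dvd_mul_left ?_ h1
    refine IsCoprime.pow ?_
    refine ((irreducible_X_sub_C (1 : ℂ)).coprime_iff_not_dvd).2 fun h5 => ?_
    have h6 := dvd_iff_isRoot.1 h5
    rw [IsRoot.def, eval_X] at h6
    exact one_ne_zero h6
  obtain ⟨T, hT'⟩ := expand_dvd N hN m S h2
  have hT0 : T ≠ 0 := by
    rintro rfl
    rw [mul_zero] at hT'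
    exact hS0 hT'
  have hTd : T.natDegree = 0 := by
    rw [hT', natDegree_mul (pow_ne_zero _ (X_sub_C_ne_zero 1)) hT0, natDegree_pow,
      natDegree_X_sub_C, mul_one] at hSd
    omega
  obtain ⟨t, ht⟩ := natDegree_eq_zero.1 hTd
  have ht0 : t ≠ 0 := by
    rintro rfl
    rw [C_0] at ht
    exact hT0 ht.symm
  have hQP : Q = C t * PP N k m := by
    rw [hR, hT', ← ht, map_mul, expand_C]
    unfold PP
    ring
  -- the values at `x` and `y`
  have e0 := (hQ 0).2.2
  have e1 := (hQ 1).2.2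
  simp only [Function.iterate_zero, id_eq, Function.iterate_one] at e0 e1
  rw [hQP, eval_mul, eval_C, PP_eval, PP_eval] at e0
  rw [hQP, derivative_C_mul, eval_mul, eval_C, PP_der N k m hN hk hm, PP_der N k m hN hk hm] at e1
  have hxN : x ^ N ≠ 1 := by
    rw [hx, Ne, div_eq_one_iff_eq hd]
    intro h
    exact hmN (by linear_combination -h)
  have hyN : y ^ N ≠ 1 := by
    intro h
    have : x ^ k * (x ^ N - 1) ^ m = 0 := e0.2 (by
      rw [h, sub_self, zero_pow (by omega), mul_zero, mul_zero])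
    rcases mul_eq_zero.1 this with h3 | h3
    · exact hx0 (pow_eq_zero_iff (by omega) |>.1 h3)
    · exact hxN (sub_eq_zero.1 (pow_eq_zero_iff (by omega) |>.1 h3))
  have h3 := e1.1 (by
    have : (k + m * N) * x ^ N - (k : ℂ) = 0 := by
      rw [hx, mul_div_cancel₀ _ hd, sub_self]
    rw [this, mul_zero])
  have h4 : ((k : ℂ) + m * N) * y ^ N - k = 0 := by
    rcases mul_eq_zero.1 h3 with h3 | h3
    · exact absurd h3 ht0
    · rcases mul_eq_zero.1 h3 with h3 | h3
      · exfalso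
        rcases mul_eq_zero.1 h3 with h3 | h3
        · exact pow_ne_zero _ hy0 h3
        · exact pow_ne_zero _ (sub_ne_zero.2 hyN) h3
      · exact h3
  rw [eq_div_iff hd]
  linear_combination h4

end Pool.Agent.K7.H47.DM
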