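import Mathlib

/-!
# Dope matrices (MP_344d54_co): definitions and the Props of the jobs
-/

set_option autoImplicit false

open Polynomial

namespace Pool.Agent.K7.H47.DM

/-- `Dn n Λ` is the set of the dope matrices with respect to `Λ` of the polynomials of degree `n`
(`M i j` says that the `j`-th derivative of `P` vanishes at `Λ i`) -/
def Dn {m : ℕ} (n : ℕ) (Λ : Fin m → ℂ) : Set (Fin m → Fin (n + 1) → Prop) :=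
  {M | ∃ P : ℂ[X], P.degree = n ∧ ∀ i j, M i j ↔ (derivative^[(j : ℕ)] P).eval (Λ i) = 0}

/-- `Λ ∼ Λ'` -/
def Sim {m : ℕ} (Λ Λ' : Fin m → ℂ) : Prop := ∀ n : ℕ, Dn n Λ = Dn n Λ'

/-- every zero pattern at `0, 1, x` is one at `0, 1, y` -/
def Tr (x y : ℂ) : Prop := ∀ P : ℂ[X], P ≠ 0 → ∃ Q : ℂ[X], Q ≠ 0 ∧ Q.natDegree = P.natDegree ∧
  ∀ j : ℕ, ((derivative^[j] P).eval 0 = 0 ↔ (derivative^[j] Q).eval 0 = 0) ∧
    ((derivative^[j] P).eval 1 = 0 ↔ (derivative^[j] Q).eval 1 = 0) ∧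
    ((derivative^[j] P).eval x = 0 ↔ (derivative^[j] Q).eval y = 0)

/-- JOB SIM -/
def StSim : Prop := ∀ x y : ℂ, Sim ![0, 1, x] ![0, 1, y] → Tr x y ∧ Tr y x

/-- JOB SYM -/
def StSym : Prop := ∀ x y : ℂ, x ≠ 0 → y ≠ 0 → Tr x y → Tr x⁻¹ y⁻¹ ∧ Tr (1 - x) (1 - y)

/-- JOB RAD -/
def StRad : Prop := ∀ (x y : ℂ) (N k m : ℕ), x ≠ 0 → x ≠ 1 → y ≠ 0 → y ≠ 1 → 1 ≤ N → 1 ≤ k →
  1 ≤ m → Tr x y → x ^ N = k / (k + m * N) → y ^ N = k / (k + m * N)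

/-- JOB QUAD -/
def StQuad : Prop := ∀ x y : ℂ, x ≠ 0 → x ≠ 1 → y ≠ 0 → y ≠ 1 → Tr x y → ∀ p q s : ℤ,
  0 < p → 0 < s → p < q + s → ¬ IsSquare (q ^ 2 + 4 * p * s) →
    p * x ^ 2 - q * x - s = 0 → p * y ^ 2 - q * y - s = 0

end Pool.Agent.K7.H47.DM
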